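import Pool.Graph.R_pool_sql_team_seeded_1e53cb71.Helper15K9.QC.Syz
import Pool.Graph.R_pool_sql_team_seeded_1e53cb71.Helper15K9.QC.Ker
import Pool.Graph.R_seed8.TH130.CI.Bc

/-!
The generic kernel vector of a multiplication map between consecutive degrees.
-/

namespace Pool.Agent.H868.Q5

set_option maxHeartbeats 400000

open MvPolynomial
open Pool.Agent.Helper15K9.QC
open Pool.Agent.W515.SLP (Deg AnnP annP_of_homog annP_of_gt)
open Pool.Agent.W695.SLP (exists_complement)
open TH130CI (gor mem_gor)

section mat

/-- a matrix over a domain has a kernel or a left inverse up to a scalar -/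
lemma kernel_or {S : Type*} [CommRing S] [IsDomain S] {r s : ℕ}
    (M : Matrix (Fin s) (Fin r) S) : (∃ c : Fin r → S, c ≠ 0 ∧ M.mulVec c = 0) ∨
      ∃ (b : S) (G : Fin r × Fin s → S), b ≠ 0 ∧
        ∀ p q, ∑ j, G (p, j) * M j q = if p = q then b else 0 := by
  classical
  have hinj : Function.Injective (algebraMap S (FractionRing S)) :=
    IsFractionRing.injective S (FractionRing S)
  by_cases hker : ∃ c : Fin r → FractionRing S, c ≠ 0 ∧
      (M.map (algebraMap S (FractionRing S))).mulVec c = 0
  · left
    obtain ⟨c, hc0, hc⟩ := hker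
    obtain ⟨b, hb⟩ := IsLocalization.exist_integer_multiples_of_finite (nonZeroDivisors S) c
    choose c' hc' using hb
    refine ⟨c', ?_, ?_⟩
    · intro h0
      apply hc0
      funext q
      have h1 := hc' q
      rw [h0, Pi.zero_apply, map_zero, Algebra.smul_def] at h1
      have h2 : algebraMap S (FractionRing S) b ≠ 0 := by
        rw [Ne, map_eq_zero_iff _ hinj]
        exact nonZeroDivisors.coe_ne_zero b
      exact (mul_eq_zero.1 h1.symm).resolve_left h2
    · funext p
      apply hinj
      rw [Pi.zero_apply, map_zero, Matrix.mulVec, dotProduct, map_sum]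
      have h1 := congrFun hc p
      rw [Matrix.mulVec, dotProduct, Pi.zero_apply] at h1
      have h2 : ∑ q, algebraMap S (FractionRing S) (M p q * c' q)
          = (b : S) • ∑ q, (M.map (algebraMap S (FractionRing S))) p q * c q := by
        rw [Finset.smul_sum]
        refine Finset.sum_congr rfl fun q _ => ?_
        rw [map_mul, hc' q, Matrix.map_apply, mul_smul_comm]
      rw [h2, h1, smul_zero]
  · right
    push Not at hker
    have h1 : Function.Injective (Matrix.toLin' (M.map (algebraMap S (FractionRing S)))) := by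
      rw [← LinearMap.ker_eq_bot, LinearMap.ker_eq_bot']
      intro c hc
      by_contra hc0
      exact hker c hc0 (by rwa [Matrix.toLin'_apply] at hc)
    obtain ⟨g, hg⟩ :=
      (Matrix.toLin' (M.map (algebraMap S (FractionRing S)))).exists_leftInverse_of_injective
        (LinearMap.ker_eq_bot.2 h1)
    have hGM : LinearMap.toMatrix' g * M.map (algebraMap S (FractionRing S)) = 1 := by
      have h2 := congrArg LinearMap.toMatrix' hg
      rw [LinearMap.toMatrix'_comp, LinearMap.toMatrix'_toLin', LinearMap.toMatrix'_id] at h2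
      exact h2
    obtain ⟨b, hb⟩ := IsLocalization.exist_integer_multiples_of_finite (nonZeroDivisors S)
      (fun z : Fin r × Fin s => LinearMap.toMatrix' g z.1 z.2)
    choose G' hG' using hb
    refine ⟨b, G', nonZeroDivisors.coe_ne_zero b, ?_⟩
    intro p q
    apply hinj
    have h3 := congrFun (congrFun hGM p) q
    rw [Matrix.mul_apply, Matrix.one_apply] at h3
    have h4 : algebraMap S (FractionRing S) (∑ j, G' (p, j) * M j q)
        = (b : S) • ∑ j, LinearMap.toMatrix' g p j
          * (M.map (algebraMap S (FractionRing S))) j q := by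
      rw [map_sum, Finset.smul_sum]
      refine Finset.sum_congr rfl fun j _ => ?_
      rw [map_mul, hG' (p, j), Matrix.map_apply, smul_mul_assoc]
    rw [h4, h3, Algebra.smul_def]
    split_ifs
    · rw [mul_one]
    · rw [mul_zero, map_zero]

/-- a matrix over a polynomial ring with a kernel at every point has a kernel -/
lemma exists_kernel {K : Type*} [Field K] [Infinite K] {n r s : ℕ}
    (M : Matrix (Fin s) (Fin r) (MvPolynomial (Fin n) K))
    (h : ∀ t : Fin n → K, ∃ c : Fin r → K, c ≠ 0 ∧ (M.map (eval t)).mulVec c = 0) :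
    ∃ c : Fin r → MvPolynomial (Fin n) K, c ≠ 0 ∧ M.mulVec c = 0 := by
  classical
  rcases kernel_or M with hk | ⟨b, G', hb0, h2⟩
  · exact hk
  · exfalso
    obtain ⟨t, ht⟩ : ∃ t : Fin n → K, eval t b ≠ 0 := by
      by_contra hcon
      push Not at hcon
      apply hb0
      apply MvPolynomial.funext
      intro t
      rw [hcon t, map_zero]
    obtain ⟨c, hc0, hc⟩ := h t
    apply hc0
    funext p
    have h3 : ∑ q, eval t (∑ j, G' (p, j) * M j q) * c q = 0 := by
      have h4 : ∀ q, eval t (∑ j, G' (p, j) * M j q) * c q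
          = ∑ j, eval t (G' (p, j)) * (eval t (M j q) * c q) := by
        intro q
        rw [map_sum, Finset.sum_mul]
        refine Finset.sum_congr rfl fun j _ => ?_
        rw [map_mul, mul_assoc]
      simp only [h4]
      rw [Finset.sum_comm]
      refine Finset.sum_eq_zero fun j _ => ?_
      rw [← Finset.mul_sum]
      have h5 := congrFun hc j
      rw [Matrix.mulVec, dotProduct, Pi.zero_apply] at h5
      simp only [Matrix.map_apply] at h5
      rw [h5, mul_zero]
    simp only [h2] at h3
    rw [Finset.sum_eq_single p] at h3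
    · rw [if_pos rfl] at h3
      exact (mul_eq_zero.1 h3).resolve_left ht
    · intro q _ hq
      rw [if_neg (Ne.symm hq), map_zero, zero_mul]
    · intro h5
      exact absurd (Finset.mem_univ p) h5

end mat

variable {K : Type*} [Field K]

/-- homogeneous components of kernel vectors are kernel vectors -/
lemma comp_mulVec' {r s : ℕ} (G : Matrix (Fin s) (Fin r) (R K)) {N : ℕ}
    (hG : ∀ p q, (G p q).IsHomogeneous N) (c : Fin r → R K) (hc : G.mulVec c = 0) (j : ℕ) :
    G.mulVec (fun q => homogeneousComponent j (c q)) = 0 := by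
  ext1 p
  have h := congrFun hc p
  rw [Matrix.mulVec, dotProduct, Pi.zero_apply] at h ⊢
  have h1 : homogeneousComponent (N + j) (∑ q, G p q * c q)
      = ∑ q, G p q * homogeneousComponent j (c q) := by
    rw [map_sum]
    exact Finset.sum_congr rfl fun q _ => Pool.Agent.Helper15K9.QC.comp_mul (hG p q) _ _
  rw [← h1, h, map_zero]

/-- **the generic kernel vector** -/
theorem kern [CharZero K] {φ : R K →ₗ[K] K} {D n : ℕ} (hφ : Deg φ D) (hn : n + 1 ≤ D)
    (hbad : ∀ t : Fin 4 → K, ∃ u : R K, u.IsHomogeneous n ∧ AnnP φ (lf t * u) ∧ ¬ AnnP φ u) :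
    ∃ (d : ℕ) (u : RT K), u.IsHomogeneous d ∧ XH n u ∧ InI (gor φ) (gl K * u) ∧
      ¬ InI (gor φ) u := by
  classical
  have hinf : Infinite K := inferInstance
  have hfin : FiniteDimensional K (H K n) :=
    Module.Finite.iff_fg.2 (homogeneousSubmodule_fg _ _ n)
  have hfin' : FiniteDimensional K (H K (D - n - 1)) :=
    Module.Finite.iff_fg.2 (homogeneousSubmodule_fg _ _ (D - n - 1))
  obtain ⟨r, e', hdec', hdual'⟩ := exists_complement (Bp φ n (D - n))
  set bb := Module.finBasis K (H K (D - n - 1)) with hbb
  set s := Module.finrank K (H K (D - n - 1)) with hs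
  set e : Fin r → R K := fun p => (e' p : H K n) with he
  have heh : ∀ p, (e p).IsHomogeneous n := fun p => (e' p).2
  set w : Fin s → R K := fun p => (bb p : H K (D - n - 1)) with hw
  have hwh : ∀ p, (w p).IsHomogeneous (D - n - 1) := fun p => (bb p).2
  have hwspan : ∀ v : R K, v.IsHomogeneous (D - n - 1) → ∃ c : Fin s → K,
      v = ∑ p, c p • w p := by
    intro v hv
    refine ⟨fun p => bb.repr ⟨v, hv⟩ p, ?_⟩
    have h4 := bb.sum_repr ⟨v, hv⟩
    have h5 := congrArg (fun z : H K (D - n - 1) => (z : R K)) h4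
    simp only [AddSubmonoidClass.coe_finsetSum, Submodule.coe_smul] at h5
    exact h5.symm
  have hdec : ∀ u : R K, u.IsHomogeneous n →
      ∃ m : R K, m.IsHomogeneous n ∧
        (∀ w : R K, w.IsHomogeneous (D - n) → φ (m * w) = 0) ∧
        ∃ c : Fin r → K, u = m + ∑ p, c p • e p := by
    intro u hu
    obtain ⟨m, hm, c, hc⟩ := hdec' ⟨u, hu⟩
    refine ⟨m, m.2, fun w hw => ?_, c, ?_⟩
    · have := congrArg (fun f => f ⟨w, hw⟩) (LinearMap.mem_ker.mp hm)
      simpa using this
    · have h5 := congrArg (fun z : H K n => (z : R K)) hc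
      simpa using h5
  have hdual : ∀ p, ∃ w : R K, w.IsHomogeneous (D - n) ∧
      ∀ q, φ (e q * w) = if q = p then 1 else 0 := by
    intro p
    obtain ⟨w, hw⟩ := hdual' p
    exact ⟨w, w.2, hw⟩
  choose wd hwd hwd' using hdual
  set M : Matrix (Fin s) (Fin r) (R K) := fun j p => Ph φ (gl K * C (e p * w j)) with hM
  have hMh : ∀ j p, (M j p).IsHomogeneous 1 := by
    intro j p
    apply Ph_hom
    have := (gl_hom (K := K)).mul (isHomogeneous_C (Fin 4) (e p * w j))
    rwa [add_zero] at this
  have hpt : ∀ t : Fin 4 → K, ∃ c : Fin r → K, c ≠ 0 ∧ (M.map (eval t)).mulVec c = 0 := by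
    intro t
    obtain ⟨u, hu, hul, hnA⟩ := hbad t
    obtain ⟨m, hm, hmw, c, hc⟩ := hdec u hu
    refine ⟨c, ?_, ?_⟩
    · intro h
      apply hnA
      apply annP_of_homog hφ (by omega) hu
      intro v hv
      rw [hc, h]
      simpa using hmw v hv
    · funext j
      rw [Matrix.mulVec, dotProduct, Pi.zero_apply]
      have h6 := hul (w j)
      rw [hc, mul_add, add_mul, map_add] at h6
      have h7 : φ (lf t * m * w j) = 0 := by
        have h8 : lf t * m * w j = m * (lf t * w j) := by ring
        rw [h8]
        apply hmw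
        have h9 := (lf_hom t).mul (hwh j)
        have h10 : 1 + (D - n - 1) = D - n := by omega
        rwa [h10] at h9
      rw [h7, zero_add, Finset.mul_sum, Finset.sum_mul, map_sum] at h6
      rw [← h6]
      refine Finset.sum_congr rfl fun q _ => ?_
      rw [mul_smul_comm, smul_mul_assoc, map_smul, smul_eq_mul, Matrix.map_apply, hM, eval_Ph,
        map_mul, evt_gl, evt_C, mul_comm]
      congr 2
      ring
  obtain ⟨c, hc0, hc⟩ := exists_kernel M hpt
  obtain ⟨p, hp⟩ := Function.ne_iff.mp hc0
  obtain ⟨d, hd⟩ : ∃ j, homogeneousComponent j (c p) ≠ 0 := by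
    by_contra hcon
    push Not at hcon
    apply hp
    rw [Pi.zero_apply, ← sum_homogeneousComponent (c p)]
    exact Finset.sum_eq_zero fun j _ => hcon j
  set c' : Fin r → R K := fun q => homogeneousComponent d (c q) with hc'
  have hc'h : ∀ q, (c' q).IsHomogeneous d := fun q => homogeneousComponent_isHomogeneous d _
  have hc'0 : M.mulVec c' = 0 := comp_mulVec' M hMh c hc d
  have hc'p : c' p ≠ 0 := hd
  set u : RT K := ∑ q, tt (c' q) * C (e q) with hu
  have huh : u.IsHomogeneous d := by
    refine IsHomogeneous.sum _ _ _ fun q _ => ?_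
    have := ((hc'h q).map (C : K →+* R K)).mul (isHomogeneous_C (Fin 4) (e q))
    rwa [add_zero] at this
  have hux : XH n u := by
    have : BH u n := by
      refine BH.sum _ _ fun q _ => ?_
      have := (BH_tt (c' q)).mul (BH_C (heh q))
      rwa [zero_add] at this
    exact this
  refine ⟨d, u, huh, hux, ?_, ?_⟩
  · intro m
    rw [mem_gor]
    have h1 : (coeff m (gl K * u)).IsHomogeneous (1 + n) := (XH.gl.mul hux) m
    apply annP_of_homog hφ (by omega) h1
    intro v hv
    rw [show D - (1 + n) = D - n - 1 by omega] at hv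
    obtain ⟨a, ha⟩ := hwspan v hv
    rw [ha, Finset.mul_sum, map_sum]
    refine Finset.sum_eq_zero fun j _ => ?_
    rw [mul_smul_comm, map_smul]
    have h2 := congrFun hc'0 j
    rw [Matrix.mulVec, dotProduct, Pi.zero_apply] at h2
    have h3 : Ph φ (gl K * u * C (w j)) = 0 := by
      rw [← h2, hu, Finset.mul_sum, Finset.sum_mul, Ph_sum]
      refine Finset.sum_congr rfl fun q _ => ?_
      have h4 : gl K * (tt (c' q) * C (e q)) * C (w j) = tt (c' q) * (gl K * C (e q * w j)) := by
        rw [C_mul]
        ring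
      rw [h4, Ph_tt_mul, hM, mul_comm]
    have h5 := congrArg (coeff m) h3
    rw [coeff_Ph, coeff_zero, mul_comm _ (C (w j)), coeff_C_mul, mul_comm] at h5
    rw [h5, smul_zero]
  · intro hI
    obtain ⟨t, ht⟩ : ∃ t, eval t (c' p) ≠ 0 := by
      by_contra hcon
      push Not at hcon
      apply hc'p
      apply MvPolynomial.funext
      intro t
      rw [hcon t, map_zero]
    apply ht
    have h1 := mem_gor.1 (hI.evt t) (wd p)
    rw [hu, map_sum, Finset.sum_mul, map_sum, Finset.sum_eq_single p] at h1
    · rw [(evt t).map_mul, evt_tt, evt_C, mul_assoc, ← smul_eq_C_mul, map_smul, hwd' p p,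
        if_pos rfl, smul_eq_mul, mul_one] at h1
      exact h1
    · intro q _ hq
      rw [(evt t).map_mul, evt_tt, evt_C, mul_assoc, ← smul_eq_C_mul, map_smul, hwd' p q,
        if_neg hq, smul_zero]
    · intro h
      exact absurd (Finset.mem_univ p) h

end Pool.Agent.H868.Q5
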